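import Mathlib

/-!
# The maximal height of the divisors of `x ^ (2 q ^ b) - 1` is `2`

For an odd prime `q` and `b ≥ 1` the largest height of a divisor of `x ^ (2 q ^ b) - 1` in `ℤ[x]` is `2`.

Proof. A divisor is, up to the sign, a product of different cyclotomic polynomials `Φ_d`, `d ∣ 2 q ^ b`. The
product of the factors with `d = q ^ (i + 1)` or `d = 2 q ^ (i + 1)` is `G (x ^ (q ^ i))`, where `G` is one of
`1`, `Φ_q = 1 + x + ⋯ + x ^ (q - 1)`, `Φ_q (- x)`, `Φ_q (x ^ 2)`. The exponents of `G` are pairwise different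
modulo `q` and its coefficients are `0`, `1`, `-1`. So all coefficients of the product of the factors with
`d ≠ 1, 2` are `0`, `1`, `-1`. The rest is one of `1`, `x - 1`, `x + 1`, `x ^ 2 - 1`, and the product has
coefficients of absolute value at most `2`. The divisor `(x + 1) Φ_q` has height `2`.
-/

set_option autoImplicit false

namespace Pool.Agent.Results.MP_0523aa_nt.HeightTwo

open Polynomial

/-- The height of `f ∈ ℤ[x]`: the largest absolute value of a coefficient of `f`. -/
def height (f : ℤ[X]) : ℕ := f.support.sup fun i => (f.coeff i).natAbs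

/-- `B(n)`: the largest height of a polynomial in `ℤ[x]` which divides `x ^ n - 1`. -/
noncomputable def B (n : ℕ) : ℕ := sSup {h : ℕ | ∃ f : ℤ[X], f ∣ X ^ n - 1 ∧ height f = h}

theorem coeff_le_height (f : ℤ[X]) (i : ℕ) : (f.coeff i).natAbs ≤ height f := by
  by_cases h : f.coeff i = 0
  · simp [h]
  · exact Finset.le_sup (f := fun i => (f.coeff i).natAbs) (mem_support_iff.2 h)

theorem height_le {f : ℤ[X]} {c : ℕ} (h : ∀ i, (f.coeff i).natAbs ≤ c) : height f ≤ c :=
  Finset.sup_le fun i _ => h i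

/-- all coefficients are `0`, `1` or `-1` -/
def Flat (f : ℤ[X]) : Prop := ∀ i, (f.coeff i).natAbs ≤ 1

/-- the coefficients are `0`, `1`, `-1` and the exponents are pairwise different modulo `q` -/
def Good (q : ℕ) (f : ℤ[X]) : Prop :=
  Flat f ∧ ∀ i j, f.coeff i ≠ 0 → f.coeff j ≠ 0 → i ≡ j [MOD q] → i = j

theorem flat_mul_expand {q : ℕ} (hq : 0 < q) {G P : ℤ[X]} (hG : Good q G) (hP : Flat P) :
    Flat (G * expand ℤ q P) := by
  intro n
  rw [coeff_mul]
  by_cases h : ∃ x ∈ Finset.HasAntidiagonal.antidiagonal n, G.coeff x.1 * (expand ℤ q P).coeff x.2 ≠ 0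
  · obtain ⟨x, hx, hne⟩ := h
    rw [Finset.sum_eq_single_of_mem x hx]
    · rw [Int.natAbs_mul]
      have h1 := hG.1 x.1
      have h2 : ((expand ℤ q P).coeff x.2).natAbs ≤ 1 := by
        rw [coeff_expand hq]
        split_ifs
        · exact hP _
        · simp
      calc _ ≤ 1 * 1 := Nat.mul_le_mul h1 h2
        _ = 1 := rfl
    · intro y hy hyx
      by_contra hne'
      apply hyx
      have hx' := left_ne_zero_of_mul hne
      have hy' := left_ne_zero_of_mul hne'
      have hx2 := right_ne_zero_of_mul hne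
      have hy2 := right_ne_zero_of_mul hne'
      rw [coeff_expand hq] at hx2 hy2
      have dx : q ∣ x.2 := by
        by_contra hd; simp [hd] at hx2
      have dy : q ∣ y.2 := by
        by_contra hd; simp [hd] at hy2
      rw [Finset.HasAntidiagonal.mem_antidiagonal] at hx hy
      have hmod : x.1 ≡ y.1 [MOD q] := by
        have e1 : x.1 ≡ n [MOD q] := by
          rw [← hx]
          calc x.1 = x.1 + 0 := by ring
            _ ≡ x.1 + x.2 [MOD q] := Nat.ModEq.add_left _ ((Nat.modEq_zero_iff_dvd.2 dx).symm)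
        have e2 : y.1 ≡ n [MOD q] := by
          rw [← hy]
          calc y.1 = y.1 + 0 := by ring
            _ ≡ y.1 + y.2 [MOD q] := Nat.ModEq.add_left _ ((Nat.modEq_zero_iff_dvd.2 dy).symm)
        exact e1.trans e2.symm
      have he := hG.2 x.1 y.1 hx' hy' hmod
      ext
      · exact he.symm
      · omega
  · have h' : ∀ x ∈ Finset.HasAntidiagonal.antidiagonal n,
        G.coeff x.1 * (expand ℤ q P).coeff x.2 = 0 := by
      intro x hx
      by_contra hc
      exact h ⟨x, hx, hc⟩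
    rw [Finset.sum_eq_zero h']
    simp

theorem cyclotomic_two_mul_eq {q : ℕ} (hq : q.Prime) (hq2 : q ≠ 2) :
    cyclotomic (2 * q) ℤ = ∑ i ∈ Finset.range q, (-X) ^ i := by
  have hodd : Odd q := hq.odd_of_ne_two hq2
  have hnd : ¬ q ∣ 2 := by
    intro h
    have := (Nat.prime_dvd_prime_iff_eq hq Nat.prime_two).1 h
    exact hq2 this
  have h1 := cyclotomic_expand_eq_cyclotomic_mul (R := ℤ) hq hnd
  rw [cyclotomic_two] at h1
  have h2 : (expand ℤ q) (X + 1 : ℤ[X]) = X ^ q + 1 := by simp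
  rw [h2] at h1
  have h3 := geom_sum_mul_neg (-X : ℤ[X]) q
  rw [hodd.neg_pow] at h3
  have h4 : (X + 1 : ℤ[X]) ≠ 0 := (monic_X_add_C (1 : ℤ)).ne_zero
  apply mul_right_cancel₀ h4
  rw [← h1]
  linear_combination -h3

theorem good_one (q : ℕ) : Good q 1 := by
  refine ⟨fun i => ?_, fun i j hi hj _ => ?_⟩
  · rw [coeff_one]; split_ifs <;> simp
  · rw [coeff_one] at hi hj
    simp at hi hj
    omega

theorem coeff_geom (q i : ℕ) (s : ℤ) :
    (∑ k ∈ Finset.range q, (C s * X) ^ k : ℤ[X]).coeff i = if i < q then s ^ i else 0 := by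
  rw [finsetSum_coeff]
  have h : ∀ k, ((C s * X) ^ k : ℤ[X]).coeff i = if i = k then s ^ k else 0 := by
    intro k
    rw [mul_pow, ← C_pow, coeff_C_mul, coeff_X_pow]
    split_ifs <;> simp
  simp only [h]
  rw [Finset.sum_ite_eq]
  simp

theorem good_geom {q : ℕ} {s : ℤ} (hs : ∀ i : ℕ, (s ^ i).natAbs ≤ 1) :
    Good q (∑ k ∈ Finset.range q, (C s * X) ^ k : ℤ[X]) := by
  refine ⟨fun i => ?_, fun i j hi hj hm => ?_⟩
  · rw [coeff_geom]
    split_ifs
    · exact hs i
    · simp
  · rw [coeff_geom] at hi hj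
    have hi' : i < q := by by_contra h; simp [h] at hi
    have hj' : j < q := by by_contra h; simp [h] at hj
    exact Nat.ModEq.eq_of_lt_of_lt hm hi' hj'

theorem good_expand {q : ℕ} (hq : Nat.Coprime 2 q) {G : ℤ[X]} (hG : Good q G) :
    Good q (expand ℤ 2 G) := by
  refine ⟨fun i => ?_, fun i j hi hj hm => ?_⟩
  · rw [coeff_expand (by norm_num)]
    split_ifs
    · exact hG.1 _
    · simp
  · rw [coeff_expand (by norm_num)] at hi hj
    have hi' : 2 ∣ i := by by_contra h; simp [h] at hi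
    have hj' : 2 ∣ j := by by_contra h; simp [h] at hj
    rw [if_pos hi'] at hi
    rw [if_pos hj'] at hj
    obtain ⟨k, rfl⟩ := hi'
    obtain ⟨l, rfl⟩ := hj'
    have h1 : k ≡ l [MOD q] := Nat.ModEq.cancel_left_of_coprime hq.symm hm
    rw [Nat.mul_div_cancel_left _ (by norm_num)] at hi hj
    rw [hG.2 k l hi hj h1]

/-- the factors belonging to `q ^ (i + 1)` and `2 q ^ (i + 1)` -/
noncomputable def fac (q : ℕ) (a c : ℕ → Bool) (i : ℕ) : ℤ[X] :=
  (bif a i then cyclotomic (q ^ (i + 1)) ℤ else 1) *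
    (bif c i then cyclotomic (2 * q ^ (i + 1)) ℤ else 1)

theorem good_fac {q : ℕ} (hq : q.Prime) (hq2 : q ≠ 2) (a c : ℕ → Bool) : Good q (fac q a c 0) := by
  have hcop : Nat.Coprime 2 q := (Nat.coprime_primes Nat.prime_two hq).2 (Ne.symm hq2)
  have h1 : cyclotomic q ℤ = ∑ k ∈ Finset.range q, (C 1 * X) ^ k := by
    have := Fact.mk hq
    rw [cyclotomic_prime]
    simp
  have h2 : cyclotomic (2 * q) ℤ = ∑ k ∈ Finset.range q, (C (-1) * X) ^ k := by
    rw [cyclotomic_two_mul_eq hq hq2]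
    simp
  have g1 : Good q (cyclotomic q ℤ) := by
    rw [h1]; exact good_geom (fun i => by simp)
  have g2 : Good q (cyclotomic (2 * q) ℤ) := by
    rw [h2]; exact good_geom (fun i => by rw [Int.natAbs_pow]; simp)
  have g3 : Good q (cyclotomic q ℤ * cyclotomic (2 * q) ℤ) := by
    have hnd : ¬ 2 ∣ q := fun h => hq2 ((Nat.prime_dvd_prime_iff_eq Nat.prime_two hq).1 h).symm
    have h := cyclotomic_expand_eq_cyclotomic_mul (R := ℤ) Nat.prime_two hnd
    rw [mul_comm q 2, mul_comm (cyclotomic (2 * q) ℤ)] at h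
    rw [← h]
    exact good_expand hcop g1
  unfold fac
  rw [zero_add, pow_one]
  cases a 0 <;> cases c 0
  · simpa using good_one q
  · simpa using g2
  · simpa using g1
  · simpa using g3

theorem fac_succ {q : ℕ} (hq : q.Prime) (a c : ℕ → Bool) (i : ℕ) :
    fac q a c (i + 1) = expand ℤ q (fac q (fun k => a (k + 1)) (fun k => c (k + 1)) i) := by
  unfold fac
  have h1 : expand ℤ q (cyclotomic (q ^ (i + 1)) ℤ) = cyclotomic (q ^ (i + 1 + 1)) ℤ := by
    rw [cyclotomic_expand_eq_cyclotomic hq (dvd_pow_self q (Nat.succ_ne_zero i)), ← pow_succ]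
  have h2 : expand ℤ q (cyclotomic (2 * q ^ (i + 1)) ℤ) = cyclotomic (2 * q ^ (i + 1 + 1)) ℤ := by
    rw [cyclotomic_expand_eq_cyclotomic hq ((dvd_pow_self q (Nat.succ_ne_zero i)).mul_left 2), mul_assoc,
      ← pow_succ]
  rw [map_mul]
  cases ha : a (i + 1) <;> cases hc : c (i + 1) <;> simp only [ha, hc, cond_true, cond_false, map_one, h1, h2]

theorem flat_prod {q : ℕ} (hq : q.Prime) (hq2 : q ≠ 2) (b : ℕ) (a c : ℕ → Bool) :
    Flat (∏ i ∈ Finset.range b, fac q a c i) := by
  induction b generalizing a c with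
  | zero => simpa using (good_one q).1
  | succ b ih =>
    rw [Finset.prod_range_succ', mul_comm]
    simp only [fac_succ hq]
    rw [← map_prod]
    exact flat_mul_expand hq.pos (good_fac hq hq2 a c) (ih _ _)

theorem factorisation {q : ℕ} (hq : q.Prime) (hq2 : q ≠ 2) (b : ℕ) :
    (X ^ (2 * q ^ b) - 1 : ℤ[X]) =
      ((X - 1) * (X + 1)) * ∏ i ∈ Finset.range b, fac q (fun _ => true) (fun _ => true) i := by
  induction b with
  | zero => simp; ring
  | succ b ih =>
    have h := congrArg (expand ℤ q) ih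
    have hnd : ¬ q ∣ 2 := by
      intro h
      exact hq2 ((Nat.prime_dvd_prime_iff_eq hq Nat.prime_two).1 h)
    have h1 := cyclotomic_expand_eq_cyclotomic_mul (R := ℤ) hq hnd
    have h0 := cyclotomic_expand_eq_cyclotomic_mul (R := ℤ) hq hq.not_dvd_one
    rw [cyclotomic_two] at h1
    rw [cyclotomic_one, one_mul] at h0
    have e : (2 * q ^ (b + 1)) = q * (2 * q ^ b) := by ring
    rw [Finset.prod_range_succ']
    simp only [fac_succ hq]
    rw [← map_prod, e, pow_mul]
    rw [map_mul, map_mul, h0, h1] at h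
    simp only [map_sub, map_pow, expand_X, map_one] at h
    rw [h]
    unfold fac
    simp only [cond_true, zero_add, pow_one]
    ring

theorem assoc_of_dvd {p h : ℤ[X]} (hp : Irreducible p) (hd : h ∣ p) :
    ∃ t : Bool, Associated h (bif t then p else 1) := by
  rcases (hp.dvd_iff).1 hd with h1 | h1
  · exact ⟨false, by simpa using associated_one_iff_isUnit.2 h1⟩
  · exact ⟨true, by simpa using h1.symm⟩

theorem dvd_prod {q : ℕ} (hq : q.Prime) (b : ℕ) (f : ℤ[X])
    (hf : f ∣ ∏ i ∈ Finset.range b, fac q (fun _ => true) (fun _ => true) i) :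
    ∃ a c : ℕ → Bool, Associated f (∏ i ∈ Finset.range b, fac q a c i) := by
  induction b generalizing f with
  | zero =>
    refine ⟨fun _ => true, fun _ => true, ?_⟩
    simp only [Finset.range_zero, Finset.prod_empty] at hf ⊢
    exact associated_one_iff_isUnit.2 (isUnit_of_dvd_one hf)
  | succ b ih =>
    rw [Finset.prod_range_succ] at hf
    obtain ⟨f1, f2, h1, h2, rfl⟩ := exists_dvd_and_dvd_of_dvd_mul hf
    obtain ⟨a, c, hac⟩ := ih f1 h1
    unfold fac at h2
    simp only [cond_true] at h2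
    obtain ⟨g1, g2, k1, k2, rfl⟩ := exists_dvd_and_dvd_of_dvd_mul h2
    obtain ⟨s, hs⟩ := assoc_of_dvd (cyclotomic.irreducible (pow_pos hq.pos _)) k1
    obtain ⟨t, ht⟩ := assoc_of_dvd
      (cyclotomic.irreducible (Nat.mul_pos two_pos (pow_pos hq.pos (b + 1)))) k2
    refine ⟨fun i => if i = b then s else a i, fun i => if i = b then t else c i, ?_⟩
    rw [Finset.prod_range_succ]
    refine Associated.mul_mul ?_ ?_
    · have : ∏ i ∈ Finset.range b, fac q (fun i => if i = b then s else a i)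
          (fun i => if i = b then t else c i) i = ∏ i ∈ Finset.range b, fac q a c i := by
        apply Finset.prod_congr rfl
        intro i hi
        have hib : i ≠ b := (Finset.mem_range.1 hi).ne
        unfold fac
        simp [hib]
      rw [this]
      exact hac
    · unfold fac
      simp only [if_true]
      exact hs.mul_mul ht

theorem coeff_two {P : ℤ[X]} (hP : Flat P) (k : ℕ) (s : ℤ) (hs : s.natAbs ≤ 1) (n : ℕ) :
    (((X ^ k + C s) * P).coeff n).natAbs ≤ 2 := by
  rw [add_mul, coeff_add, coeff_C_mul, coeff_X_pow_mul']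
  refine (Int.natAbs_add_le _ _).trans ?_
  have h1 : (if k ≤ n then P.coeff (n - k) else 0).natAbs ≤ 1 := by
    split_ifs
    · exact hP _
    · simp
  have h2 : (s * P.coeff n).natAbs ≤ 1 * 1 := by
    rw [Int.natAbs_mul]
    exact Nat.mul_le_mul hs (hP n)
  omega

theorem upper {q : ℕ} (hq : q.Prime) (hq2 : q ≠ 2) (b : ℕ) (f : ℤ[X])
    (hf : f ∣ X ^ (2 * q ^ b) - 1) : height f ≤ 2 := by
  rw [factorisation hq hq2] at hf
  obtain ⟨f1, f2, h1, h2, rfl⟩ := exists_dvd_and_dvd_of_dvd_mul hf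
  obtain ⟨g1, g2, k1, k2, rfl⟩ := exists_dvd_and_dvd_of_dvd_mul h1
  obtain ⟨a, c, hac⟩ := dvd_prod hq b f2 h2
  have i1 : Irreducible (X - 1 : ℤ[X]) := by
    rw [← cyclotomic_one]; exact cyclotomic.irreducible one_pos
  have i2 : Irreducible (X + 1 : ℤ[X]) := by
    rw [← cyclotomic_two]; exact cyclotomic.irreducible two_pos
  obtain ⟨s, hs⟩ := assoc_of_dvd i1 k1
  obtain ⟨t, ht⟩ := assoc_of_dvd i2 k2
  have hflat := flat_prod hq hq2 b a c
  set P := ∏ i ∈ Finset.range b, fac q a c i with hP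
  have hass := (hs.mul_mul ht).mul_mul hac
  obtain ⟨u, hu⟩ := hass.symm
  have hmain : ∀ n, (((bif s then (X - 1 : ℤ[X]) else 1) * (bif t then (X + 1 : ℤ[X]) else 1) * P).coeff n).natAbs
      ≤ 2 := by
    intro n
    cases s <;> cases t
    · simp only [cond_false, one_mul]
      exact (hflat n).trans (by norm_num)
    · simp only [cond_false, cond_true, one_mul]
      have := coeff_two hflat 1 1 (by norm_num) n
      simpa using this
    · simp only [cond_false, cond_true, mul_one]
      have := coeff_two hflat 1 (-1) (by norm_num) n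
      simpa [sub_eq_add_neg] using this
    · simp only [cond_true]
      have := coeff_two hflat 2 (-1) (by norm_num) n
      have e : (X - 1 : ℤ[X]) * (X + 1) = X ^ 2 + C (-1) := by
        simp only [map_neg, map_one]; ring
      rw [e]
      exact this
  rw [← hu]
  obtain ⟨r, hr, hr'⟩ := isUnit_iff.1 u.isUnit
  rw [← hr']
  apply height_le
  intro n
  rw [coeff_mul_C, Int.natAbs_mul, Int.natAbs_of_isUnit hr, mul_one]
  exact hmain n

theorem lower {q : ℕ} (hq : q.Prime) (hq2 : q ≠ 2) {b : ℕ} (hb : 0 < b) :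
    ∃ f : ℤ[X], f ∣ X ^ (2 * q ^ b) - 1 ∧ 2 ≤ height f := by
  refine ⟨(X + 1) * cyclotomic q ℤ, ?_, ?_⟩
  · rw [factorisation hq hq2]
    apply mul_dvd_mul (dvd_mul_left _ _)
    have h := Finset.dvd_prod_of_mem (fac q (fun _ => true) (fun _ => true)) (Finset.mem_range.2 hb)
    refine dvd_trans ?_ h
    unfold fac
    simp
  · refine le_trans ?_ (coeff_le_height _ 1)
    have := Fact.mk hq
    have h1 : cyclotomic q ℤ = ∑ k ∈ Finset.range q, (C 1 * X) ^ k := by
      rw [cyclotomic_prime]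
      simp
    rw [h1, add_mul, one_mul, coeff_add, coeff_geom]
    have h2 : (X * ∑ k ∈ Finset.range q, (C 1 * X : ℤ[X]) ^ k).coeff 1 =
        (∑ k ∈ Finset.range q, (C 1 * X : ℤ[X]) ^ k).coeff 0 := coeff_X_mul _ 0
    rw [h2, coeff_geom, if_pos hq.pos, if_pos hq.one_lt]
    norm_num

/-- **Main result.** For every odd prime `q` and every `b ≥ 1`, `B(2 q ^ b) = 2`; the number `B(2 q ^ b)` is the
maximum of the heights of the divisors of `x ^ (2 q ^ b) - 1` in `ℤ[x]` (and not only the supremum). -/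
theorem result (q b : ℕ) (hq : q.Prime) (hq2 : q ≠ 2) (hb : 1 ≤ b) :
    B (2 * q ^ b) = 2 ∧
      IsGreatest {h : ℕ | ∃ f : ℤ[X], f ∣ X ^ (2 * q ^ b) - 1 ∧ height f = h} (B (2 * q ^ b)) := by
  have hg : IsGreatest {h : ℕ | ∃ f : ℤ[X], f ∣ X ^ (2 * q ^ b) - 1 ∧ height f = h} 2 := by
    constructor
    · obtain ⟨f, hf, h2⟩ := lower hq hq2 hb
      exact ⟨f, hf, le_antisymm (upper hq hq2 b f hf) h2⟩
    · rintro h ⟨f, hf, rfl⟩
      exact upper hq hq2 b f hf
  have hB : B (2 * q ^ b) = 2 := hg.csSup_eq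
  exact ⟨hB, by rw [hB]; exact hg⟩

end Pool.Agent.Results.MP_0523aa_nt.HeightTwo
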